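import Pool.Agent.H48.FXD.Defs

set_option autoImplicit false

open Bundle Manifold Filter Set MeasureTheory
open scoped ContDiff Topology ENNReal NNReal

namespace Pool.Agent.H15.FXD

open Pool.Agent.H48.FXD

variable {E : Type*} [NormedAddCommGroup E] [NormedSpace ℝ E] [FiniteDimensional ℝ E]
  {M : Type*} [MetricSpace M] [ChartedSpace E M] [IsManifold 𝓘(ℝ, E) ∞ M]
  [RiemannianBundle (fun x : M => TangentSpace 𝓘(ℝ, E) x)]
  [IsContMDiffRiemannianBundle 𝓘(ℝ, E) ∞ E (fun x : M => TangentSpace 𝓘(ℝ, E) x)]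
  [IsRiemannianManifold 𝓘(ℝ, E) M]

omit [FiniteDimensional ℝ E] [IsRiemannianManifold 𝓘(ℝ, E) M] in
theorem contRiem : IsContinuousRiemannianBundle E (fun x : M => TangentSpace 𝓘(ℝ, E) x) := by
  obtain ⟨g, hg, hg'⟩ := (inferInstance : IsContMDiffRiemannianBundle 𝓘(ℝ, E) ∞ E
    (fun x : M => TangentSpace 𝓘(ℝ, E) x)).exists_contMDiff
  exact ⟨g, hg.continuous, hg'⟩

omit [FiniteDimensional ℝ E] [IsRiemannianManifold 𝓘(ℝ, E) M] in
theorem evt_mfderiv (z : M) {r : ℝ} (hr : 1 < r) :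
    ∀ᶠ y in 𝓝 z, ∀ v : TangentSpace 𝓘(ℝ, E) y,
      tn (E := E) z (mfderiv 𝓘(ℝ, E) 𝓘(ℝ, E) (extChartAt 𝓘(ℝ, E) z) y v) ≤ r * ‖v‖ := by
  have h1 : IsContinuousRiemannianBundle E (fun x : M => TangentSpace 𝓘(ℝ, E) x) := contRiem
  have h2 : IsManifold 𝓘(ℝ, E) 1 M := IsManifold.of_le (m := 1) (n := ∞) (by norm_cast)
  filter_upwards [eventually_norm_symmL_trivializationAt_self_comp_lt E
    (fun x : M => TangentSpace 𝓘(ℝ, E) x) z hr, chart_source_mem_nhds E z] with y hy hys v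
  rw [TangentBundle.continuousLinearMapAt_trivializationAt hys,
    TangentBundle.symmL_trivializationAt (mem_chart_source E z),
    mfderivWithin_range_extChartAt_symm] at hy
  have h3 := ContinuousLinearMap.le_opNorm_of_le
    ((ContinuousLinearMap.id ℝ (TangentSpace 𝓘(ℝ, E) z)) ∘L
      (mfderiv 𝓘(ℝ, E) 𝓘(ℝ, E) (extChartAt 𝓘(ℝ, E) z) y)) (le_refl ‖v‖)
  refine le_trans (le_trans (le_of_eq ?_) h3) ?_
  · rfl
  · exact mul_le_mul_of_nonneg_right hy.le (norm_nonneg _)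


omit [IsManifold 𝓘(ℝ, E) ∞ M]
  [IsContMDiffRiemannianBundle 𝓘(ℝ, E) ∞ E (fun x : M => TangentSpace 𝓘(ℝ, E) x)]
  [IsRiemannianManifold 𝓘(ℝ, E) M] in
theorem exists_functional (z : M) (w0 : E) : ∃ l : E →L[ℝ] ℝ,
    (∀ w : E, |l w| ≤ tn z w) ∧ l w0 = tn z w0 := by
  by_cases h0 : tn z w0 = 0
  · refine ⟨0, fun w => ?_, ?_⟩
    · simp only [zero_apply, abs_zero]
      exact @norm_nonneg (TangentSpace 𝓘(ℝ, E) z) _ w
    · simp [h0]
  · have hn : 0 ≤ tn z w0 := @norm_nonneg (TangentSpace 𝓘(ℝ, E) z) _ w0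
    have hp : 0 < tn z w0 := lt_of_le_of_ne hn (Ne.symm h0)
    let L : E →ₗ[ℝ] ℝ :=
      { toFun := fun w => (tn z w0)⁻¹ * @inner ℝ (TangentSpace 𝓘(ℝ, E) z) _ w0 w
        map_add' := fun a b => by
          rw [← mul_add]
          congr 1
          exact @inner_add_right ℝ (TangentSpace 𝓘(ℝ, E) z) _ _ _ w0 a b
        map_smul' := fun c a => by
          have h1 : @inner ℝ (TangentSpace 𝓘(ℝ, E) z) _ w0 (c • a) =
              c * @inner ℝ (TangentSpace 𝓘(ℝ, E) z) _ w0 a :=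
            @real_inner_smul_right (TangentSpace 𝓘(ℝ, E) z) _ _ w0 a c
          rw [h1]
          simp only [RingHom.id_apply, smul_eq_mul]
          ring }
    refine ⟨LinearMap.toContinuousLinearMap L, fun w => ?_, ?_⟩
    · change |(tn z w0)⁻¹ * @inner ℝ (TangentSpace 𝓘(ℝ, E) z) _ w0 w| ≤ tn z w
      rw [abs_mul, abs_of_pos (inv_pos.2 hp)]
      have h2 : |@inner ℝ (TangentSpace 𝓘(ℝ, E) z) _ w0 w| ≤ tn z w0 * tn z w :=
        @abs_real_inner_le_norm (TangentSpace 𝓘(ℝ, E) z) _ _ w0 w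
      calc (tn z w0)⁻¹ * |@inner ℝ (TangentSpace 𝓘(ℝ, E) z) _ w0 w|
          ≤ (tn z w0)⁻¹ * (tn z w0 * tn z w) :=
            mul_le_mul_of_nonneg_left h2 (inv_pos.2 hp).le
        _ = tn z w := by field_simp
    · change (tn z w0)⁻¹ * @inner ℝ (TangentSpace 𝓘(ℝ, E) z) _ w0 w0 = tn z w0
      have h3 : @inner ℝ (TangentSpace 𝓘(ℝ, E) z) _ w0 w0 = tn z w0 * tn z w0 :=
        @real_inner_self_eq_norm_mul_norm (TangentSpace 𝓘(ℝ, E) z) _ _ w0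
      rw [h3]
      field_simp

theorem pf_DLB (z : M) {r : ℝ} (hr : 1 < r) : ∀ᶠ x in 𝓝 z,
    tn z (extChartAt 𝓘(ℝ, E) z x - extChartAt 𝓘(ℝ, E) z z) ≤ r * dist z x := by
  have h1 : IsContinuousRiemannianBundle E (fun x : M => TangentSpace 𝓘(ℝ, E) x) := contRiem
  have h2 : IsManifold 𝓘(ℝ, E) 1 M := IsManifold.of_le (m := 1) (n := ∞) (by norm_cast)
  have hU : {y : M | (∀ v : TangentSpace 𝓘(ℝ, E) y,
      tn (E := E) z (mfderiv 𝓘(ℝ, E) 𝓘(ℝ, E) (extChartAt 𝓘(ℝ, E) z) y v) ≤ r * ‖v‖) ∧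
      y ∈ (chartAt E z).source} ∈ 𝓝 z :=
    (evt_mfderiv z hr).and (chart_source_mem_nhds E z)
  obtain ⟨c, hc, hcU⟩ := Metric.mem_nhds_iff.1 hU
  filter_upwards [Metric.ball_mem_nhds z hc] with x hx
  by_contra hlt
  push Not at hlt
  have hr0 : 0 < r := by linarith
  obtain ⟨d, hd1, hd2⟩ := exists_between (lt_min (show dist z x < c by
    rw [dist_comm]; exact hx) ((lt_div_iff₀' hr0).2 hlt))
  have hd3 : d < c := lt_of_lt_of_le hd2 (min_le_left _ _)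
  have hd4 : r * d < tn z (extChartAt 𝓘(ℝ, E) z x - extChartAt 𝓘(ℝ, E) z z) :=
    (lt_div_iff₀' hr0).1 (lt_of_lt_of_le hd2 (min_le_right _ _))
  have hd0 : 0 < d := lt_of_le_of_lt dist_nonneg hd1
  have hdist : ∀ y : M, riemannianEDist 𝓘(ℝ, E) z y = ENNReal.ofReal (dist z y) := by
    intro y
    rw [← IsRiemannianManifold.out (I := 𝓘(ℝ, E)) z y, edist_dist]
  have hlt2 : riemannianEDist 𝓘(ℝ, E) z x < ENNReal.ofReal d := by
    rw [hdist]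
    exact (ENNReal.ofReal_lt_ofReal_iff hd0).2 hd1
  obtain ⟨γ, hγ0, hγ1, hγs, hγl, -, -⟩ :=
    exists_lt_locally_constant_of_riemannianEDist_lt hlt2 (zero_lt_one (α := ℝ))
  have hmem : ∀ t ∈ Icc (0 : ℝ) 1, γ t ∈ Metric.ball z c := by
    intro t ht
    have e1 : riemannianEDist 𝓘(ℝ, E) z (γ t) < ENNReal.ofReal d :=
      lt_of_le_of_lt ((riemannianEDist_le_pathELength hγs.contMDiffOn hγ0 rfl ht.1).trans
        (pathELength_mono (le_refl _) ht.2)) hγl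
    rw [hdist] at e1
    have e2 := (ENNReal.ofReal_lt_ofReal_iff hd0).1 e1
    rw [Metric.mem_ball, dist_comm]
    exact lt_trans e2 hd3
  set γ' : ℝ → E := extChartAt 𝓘(ℝ, E) z ∘ γ with hγ'
  have hC : ContMDiffOn 𝓘(ℝ, ℝ) 𝓘(ℝ, E) 1 γ' (Icc 0 1) :=
    contMDiffOn_extChartAt.comp (I' := 𝓘(ℝ, E)) (t := (chartAt E z).source)
      hγs.contMDiffOn (fun t ht => (hcU (hmem t ht)).2)
  have hC' : ContDiffOn ℝ 1 γ' (Icc 0 1) := contMDiffOn_iff_contDiffOn.1 hC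
  obtain ⟨l, hl1, hl2⟩ := exists_functional z
    (extChartAt 𝓘(ℝ, E) z x - extChartAt 𝓘(ℝ, E) z z)
  have hh : ContDiffOn ℝ 1 (fun t => l (γ' t)) (Icc 0 1) := l.contDiff.comp_contDiffOn hC'
  have hder : ∀ t ∈ Icc (0 : ℝ) 1, ‖derivWithin (fun t => l (γ' t)) (Icc 0 1) t‖ₑ ≤
      ENNReal.ofReal r * ‖mfderivWithin 𝓘(ℝ, ℝ) 𝓘(ℝ, E) γ (Icc 0 1) t 1‖ₑ := by
    intro t ht
    have e1 : derivWithin (fun t => l (γ' t)) (Icc 0 1) t = l (derivWithin γ' (Icc 0 1) t) := by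
      have e2 : HasDerivWithinAt γ' (derivWithin γ' (Icc 0 1) t) (Icc 0 1) t :=
        (hC'.differentiableOn one_ne_zero t ht).hasDerivWithinAt
      exact (l.hasFDerivAt.comp_hasDerivWithinAt t e2).derivWithin
        (uniqueDiffOn_Icc zero_lt_one t ht)
    have e3 : (derivWithin γ' (Icc 0 1) t : E) =
        mfderiv 𝓘(ℝ, E) 𝓘(ℝ, E) (extChartAt 𝓘(ℝ, E) z) (γ t)
          (mfderivWithin 𝓘(ℝ, ℝ) 𝓘(ℝ, E) γ (Icc 0 1) t 1) := by
      have e4 : mfderivWithin 𝓘(ℝ, ℝ) 𝓘(ℝ, E) γ' (Icc 0 1) t =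
          (mfderiv 𝓘(ℝ, E) 𝓘(ℝ, E) (extChartAt 𝓘(ℝ, E) z) (γ t)) ∘L
            (mfderivWithin 𝓘(ℝ, ℝ) 𝓘(ℝ, E) γ (Icc 0 1) t) := by
        apply mfderiv_comp_mfderivWithin
        · exact mdifferentiableAt_extChartAt (hcU (hmem t ht)).2
        · exact (hγs.mdifferentiable one_ne_zero).mdifferentiableOn _ ht
        · rw [uniqueMDiffWithinAt_iff_uniqueDiffWithinAt]
          exact uniqueDiffOn_Icc zero_lt_one _ ht
      rw [← fderivWithin_derivWithin, ← mfderivWithin_eq_fderivWithin]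
      exact congr($e4 1)
    rw [e1, e3]
    have e5 := (hl1 (mfderiv 𝓘(ℝ, E) 𝓘(ℝ, E) (extChartAt 𝓘(ℝ, E) z) (γ t)
          (mfderivWithin 𝓘(ℝ, ℝ) 𝓘(ℝ, E) γ (Icc 0 1) t 1))).trans
      ((hcU (hmem t ht)).1 (mfderivWithin 𝓘(ℝ, ℝ) 𝓘(ℝ, E) γ (Icc 0 1) t 1))
    rw [← ofReal_norm, ← ofReal_norm, ← ENNReal.ofReal_mul hr0.le]
    exact ENNReal.ofReal_le_ofReal e5
  have hfin : ‖l (γ' 1) - l (γ' 0)‖ₑ ≤ ENNReal.ofReal r * ENNReal.ofReal d := by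
    calc ‖l (γ' 1) - l (γ' 0)‖ₑ
        ≤ ∫⁻ t in Icc (0 : ℝ) 1, ‖derivWithin (fun t => l (γ' t)) (Icc 0 1) t‖ₑ :=
          enorm_sub_le_lintegral_derivWithin_Icc_of_contDiffOn_Icc hh zero_le_one
      _ ≤ ∫⁻ t in Icc (0 : ℝ) 1,
          ENNReal.ofReal r * ‖mfderivWithin 𝓘(ℝ, ℝ) 𝓘(ℝ, E) γ (Icc 0 1) t 1‖ₑ :=
          setLIntegral_mono' measurableSet_Icc hder
      _ = ENNReal.ofReal r * pathELength 𝓘(ℝ, E) γ 0 1 := by
          rw [lintegral_const_mul' _ _ ENNReal.ofReal_ne_top,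
            pathELength_eq_lintegral_mfderivWithin_Icc]
      _ ≤ ENNReal.ofReal r * ENNReal.ofReal d := by gcongr
  have e6 : l (γ' 1) - l (γ' 0) = tn z (extChartAt 𝓘(ℝ, E) z x - extChartAt 𝓘(ℝ, E) z z) := by
    rw [← hl2, map_sub, hγ']
    simp only [Function.comp_apply, hγ0, hγ1]
  rw [e6, ← ENNReal.ofReal_mul hr0.le, ← ofReal_norm] at hfin
  have e7 := (ENNReal.ofReal_le_ofReal_iff (by positivity)).1 hfin
  have e8 := le_trans (le_abs_self _) e7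
  exact absurd hd4 (not_lt.2 e8)

end Pool.Agent.H15.FXD
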